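import Mathlib

/-!
The `r`-dynamic chromatic number is not bounded by a constant times the sum of the treewidth and `r`.
-/

namespace Pool.Agent.Results.MP_96dc1b_co.SuperlinearInTreewidth

/-- `φ` is an `r`-dynamic colouring of `G`: it is proper, and every vertex `v` sees at least
`min r (deg v)` colours in its neighbourhood. -/
def IsDynamic {V : Type} (G : SimpleGraph V) (r : ℕ) {k : ℕ} (φ : V → Fin k) : Prop :=
  (∀ u v, G.Adj u v → φ u ≠ φ v) ∧
    ∀ v, min r (G.neighborSet v).ncard ≤ (φ '' G.neighborSet v).ncard

/-- The `r`-dynamic chromatic number: the least `k` for which there is an `r`-dynamic colouring with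
`k` colours. -/
noncomputable def dynamicChromaticNumber {V : Type} (G : SimpleGraph V) (r : ℕ) : ℕ :=
  sInf {k | ∃ φ : V → Fin k, IsDynamic G r φ}

/-- `(T, B)` is a tree decomposition of `G`: `T` is a tree, every vertex and every edge of `G` is
contained in a bag, and the bags containing a given vertex form a connected subgraph of `T`. -/
structure IsTreeDecomposition {V ι : Type} (G : SimpleGraph V) (T : SimpleGraph ι)
    (B : ι → Finset V) : Prop where
  tree : T.IsTree
  vertex : ∀ v, ∃ i, v ∈ B i
  edge : ∀ u v, G.Adj u v → ∃ i, u ∈ B i ∧ v ∈ B i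
  conn : ∀ v, (T.induce {i | v ∈ B i}).Preconnected

/-- The treewidth: the least `k` such that there is a tree decomposition (with a finite tree) all
whose bags have at most `k + 1` vertices. -/
noncomputable def treewidth {V : Type} (G : SimpleGraph V) : ℕ :=
  sInf {k | ∃ (ι : Type) (_ : Finite ι) (T : SimpleGraph ι) (B : ι → Finset V),
    IsTreeDecomposition G T B ∧ ∀ i, (B i).card ≤ k + 1}

/-- vertices: `q * q` hubs and `q * q * M` leaves -/
abbrev Vert (q M : ℕ) : Type := (Fin q × Fin q) ⊕ (Fin q × Fin q × Fin M)

/-- the hub `(x, y)` is adjacent to the leaf `(i, j, m)` if `x = i` or `y = j` -/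
def adj (q M : ℕ) : Vert q M → Vert q M → Prop
  | .inl h, .inr l => h.1 = l.1 ∨ h.2 = l.2.1
  | .inr l, .inl h => h.1 = l.1 ∨ h.2 = l.2.1
  | _, _ => False

/-- the graph -/
def graph (q M : ℕ) : SimpleGraph (Vert q M) where
  Adj := adj q M
  symm := ⟨by rintro (a | a) (b | b) h <;> simpa [adj] using h⟩
  loopless := ⟨by rintro (a | a) h <;> simp [adj] at h⟩

theorem treewidth_le (q M : ℕ) : treewidth (graph q M) ≤ q * q := by
  classical
  refine Nat.sInf_le ⟨Option (Fin q × Fin q × Fin M), inferInstance, SimpleGraph.starGraph none,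
    fun o => o.elim (Finset.univ.map .inl) fun l => insert (.inr l) (Finset.univ.map .inl),
    ⟨SimpleGraph.isTree_starGraph _, ?_, ?_, ?_⟩, ?_⟩
  · rintro (h | l)
    · exact ⟨none, by simp⟩
    · exact ⟨some l, by simp⟩
  · rintro (h | l) (h' | l') ha
    · exact absurd ha (by simp [graph, adj])
    · exact ⟨some l', by simp, by simp⟩
    · exact ⟨some l, by simp, by simp⟩
    · exact absurd ha (by simp [graph, adj])
  · rintro (h | l)
    · have hn : (none : Option (Fin q × Fin q × Fin M)) ∈ {i : Option (Fin q × Fin q × Fin M) |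
          (Sum.inl h : Vert q M) ∈ (i.elim (Finset.univ.map .inl) fun l =>
            insert (.inr l) (Finset.univ.map .inl) : Finset (Vert q M))} := by simp
      have key : ∀ i, ((SimpleGraph.starGraph none).induce _).Reachable i ⟨none, hn⟩ := by
        rintro ⟨i, hi⟩
        rcases i with _ | l
        · exact SimpleGraph.Reachable.refl _
        · refine SimpleGraph.Adj.reachable ?_
          simp [SimpleGraph.starGraph_adj]
      exact fun i j => (key i).trans (key j).symm
    · rintro ⟨i, hi⟩ ⟨j, hj⟩
      have h1 : i = some l := by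
        rcases i with _ | i
        · simp at hi
        · simp only [Set.mem_ofPred_eq, Option.elim_some, Finset.mem_insert, Sum.inr.injEq,
            Finset.mem_map, Finset.mem_univ, true_and, reduceCtorEq, exists_false, or_false,
            Function.Embedding.inl_apply] at hi
          rw [hi]
      have h2 : j = some l := by
        rcases j with _ | j
        · simp at hj
        · simp only [Set.mem_ofPred_eq, Option.elim_some, Finset.mem_insert, Sum.inr.injEq,
            Finset.mem_map, Finset.mem_univ, true_and, reduceCtorEq, exists_false, or_false,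
            Function.Embedding.inl_apply] at hj
          rw [hj]
      subst h1 h2
      exact SimpleGraph.Reachable.refl _
  · intro i
    rcases i with _ | l
    · simp
    · refine (Finset.card_insert_le _ _).trans ?_
      simp

theorem le_dynamicChromaticNumber (q M : ℕ) :
    q * (q * M) ≤ dynamicChromaticNumber (graph q M) (2 * (q * M)) := by
  classical
  have hne : {k | ∃ φ : Vert q M → Fin k, IsDynamic (graph q M) (2 * (q * M)) φ}.Nonempty := by
    refine ⟨Fintype.card (Vert q M), Fintype.equivFin _, ?_, ?_⟩
    · intro u v h h'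
      exact h.ne ((Fintype.equivFin _).injective h')
    · intro v
      rw [Set.ncard_image_of_injective _ (Fintype.equivFin _).injective]
      exact min_le_right _ _
  obtain ⟨φ, -, hφ⟩ := Nat.sInf_mem hne
  have hdeg : ∀ h : Fin q × Fin q,
      ((graph q M).neighborSet (.inl h)).ncard ≤ 2 * (q * M) := by
    intro h
    have hsub : (graph q M).neighborSet (.inl h) ⊆
        ((fun a : Fin q × Fin M => (Sum.inr (h.1, a.1, a.2) : Vert q M)) '' Set.univ) ∪
        ((fun a : Fin q × Fin M => (Sum.inr (a.1, h.2, a.2) : Vert q M)) '' Set.univ) := by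
      rintro (h' | ⟨i, j, m⟩) hv
      · simp [graph, adj, SimpleGraph.neighborSet] at hv
      · simp only [SimpleGraph.mem_neighborSet, graph, adj] at hv
        rcases hv with hv | hv
        · exact Or.inl ⟨(j, m), trivial, by simp [hv]⟩
        · exact Or.inr ⟨(i, m), trivial, by simp [hv]⟩
    refine (Set.ncard_le_ncard hsub (Set.toFinite _)).trans ((Set.ncard_union_le _ _).trans ?_)
    have h1 := Set.ncard_image_le (f := fun a : Fin q × Fin M =>
      (Sum.inr (h.1, a.1, a.2) : Vert q M)) (Set.toFinite (Set.univ : Set (Fin q × Fin M)))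
    have h2 := Set.ncard_image_le (f := fun a : Fin q × Fin M =>
      (Sum.inr (a.1, h.2, a.2) : Vert q M)) (Set.toFinite (Set.univ : Set (Fin q × Fin M)))
    have h3 : (Set.univ : Set (Fin q × Fin M)).ncard = q * M := by
      rw [Set.ncard_univ]; simp
    omega
  have hinj : ∀ h : Fin q × Fin q, Set.InjOn φ ((graph q M).neighborSet (.inl h)) := by
    intro h
    refine Set.injOn_of_ncard_image_eq (le_antisymm (Set.ncard_image_le (Set.toFinite _)) ?_)
      (Set.toFinite _)
    have := hφ (.inl h)
    rwa [min_eq_right (hdeg h)] at this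
  have hin : Function.Injective fun l : Fin q × Fin q × Fin M => φ (.inr l) := by
    intro l l' he
    have h1 : (Sum.inr l : Vert q M) ∈ (graph q M).neighborSet (.inl (l.1, l'.2.1)) := by
      simp [graph, adj]
    have h2 : (Sum.inr l' : Vert q M) ∈ (graph q M).neighborSet (.inl (l.1, l'.2.1)) := by
      simp [graph, adj]
    exact Sum.inr_injective (hinj _ h1 h2 he)
  have := Fintype.card_le_of_injective _ hin
  simp only [Fintype.card_prod, Fintype.card_fin] at this
  exact this

/-- There is no absolute constant `C` such that `χ_r(G) ≤ C (tw(G) + r)` for all finite graphs `G`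
and all `r ≥ 1`. -/
theorem result : ¬ ∃ C : ℝ, ∀ (V : Type) [Finite V] (G : SimpleGraph V) (r : ℕ), 1 ≤ r →
    (dynamicChromaticNumber G r : ℝ) ≤ C * (treewidth G + r) := by
  rintro ⟨C, h⟩
  obtain ⟨q, hq⟩ := exists_nat_gt (max (3 * C) 1)
  have hq1 : (1 : ℝ) < q := lt_of_le_of_lt (le_max_right _ _) hq
  have hq3 : 3 * C < q := lt_of_le_of_lt (le_max_left _ _) hq
  have hq0 : 1 < q := by exact_mod_cast hq1
  have h1 := h (Vert q q) (graph q q) (2 * (q * q)) (by nlinarith)
  have h2 : ((q * (q * q) : ℕ) : ℝ) ≤ dynamicChromaticNumber (graph q q) (2 * (q * q)) := by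
    exact_mod_cast le_dynamicChromaticNumber q q
  have h3 : (treewidth (graph q q) : ℝ) ≤ (q * q : ℕ) := by exact_mod_cast treewidth_le q q
  have h4 : (0 : ℝ) < q * q := by positivity
  push_cast at h1 h2 h3
  by_cases hC : 0 ≤ C
  · have h5 : C * (treewidth (graph q q) + 2 * (q * q)) ≤ C * (q * q + 2 * (q * q) : ℝ) :=
      mul_le_mul_of_nonneg_left (by linarith) hC
    nlinarith
  · have h6 : (0 : ℝ) ≤ treewidth (graph q q) := Nat.cast_nonneg _
    have h7 : C * (treewidth (graph q q) + 2 * (q * q) : ℝ) ≤ 0 :=
      mul_nonpos_of_nonpos_of_nonneg (by linarith) (by linarith)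
    have h8 : (0 : ℝ) < q * (q * q) := by positivity
    linarith

end Pool.Agent.Results.MP_96dc1b_co.SuperlinearInTreewidth
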